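import Mathlib
import Pool.Agent.MP_45d82d_co.Param

set_option autoImplicit false

namespace Pool.Agent.Results.MP_45d82d_co.AlmostQuadratic

/-- Inversion monotonicity of 1324-avoiders for all `k ≤ n ^ 2 / (10 ^ 8 (⌊log₂ n⌋ + 1) ^ 2)`. -/
theorem result :
    ∀ n k : ℕ, 10 ^ 8 * k * (Nat.log 2 n + 1) ^ 2 ≤ n ^ 2 →
      Nat.card {σ : Equiv.Perm (Fin n) //
        (¬ ∃ a b c d : Fin n, a < b ∧ b < c ∧ c < d ∧
            σ a < σ c ∧ σ c < σ b ∧ σ b < σ d) ∧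
        Nat.card {p : Fin n × Fin n // p.1 < p.2 ∧ σ p.2 < σ p.1} = k} ≤
      Nat.card {σ : Equiv.Perm (Fin (n + 1)) //
        (¬ ∃ a b c d : Fin (n + 1), a < b ∧ b < c ∧ c < d ∧
            σ a < σ c ∧ σ c < σ b ∧ σ b < σ d) ∧
        Nat.card {p : Fin (n + 1) × Fin (n + 1) // p.1 < p.2 ∧ σ p.2 < σ p.1} = k} := by
  intro n k h
  rw [Pool.Agent.MP_45d82d_co.card_eq_Av, Pool.Agent.MP_45d82d_co.card_eq_Av]
  exact Pool.Agent.MP_45d82d_co.card_Av_le n k h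

end Pool.Agent.Results.MP_45d82d_co.AlmostQuadratic
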