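import Mathlib
import Pool.Agent.MP_45d82d_co.h26.Thr

set_option autoImplicit false

namespace Pool.Agent.Results.MP_45d82d_co.Threshold

/-- The number of 1324-avoiding permutations of length `n` with exactly `k` inversions. -/
noncomputable def c (k n : ℕ) : ℕ :=
  Nat.card {σ : Equiv.Perm (Fin n) //
    (¬ ∃ a b c d : Fin n, a < b ∧ b < c ∧ c < d ∧
        σ a < σ c ∧ σ c < σ b ∧ σ b < σ d) ∧
    Nat.card {p : Fin n × Fin n // p.1 < p.2 ∧ σ p.2 < σ p.1} = k}

/-- For every factor `M ≥ 1` and all large `N`, the least number `K` of inversions for which the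
count drops by more than the factor `M` between two lengths `N ≤ n ≤ n'` exists and has the order
`N ^ 2 / (log N) ^ 2`. -/
theorem result (M : ℕ) (hM : 1 ≤ M) : ∃ N₀ : ℕ, ∀ N : ℕ, N₀ ≤ N → ∃ K : ℕ,
    IsLeast {k : ℕ | ∃ n n' : ℕ, N ≤ n ∧ n ≤ n' ∧ M * c k n' < c k n} K ∧
    N ^ 2 < 4 * 10 ^ 8 * K * (Nat.log 2 N + 1) ^ 2 ∧
    K * (Nat.log 2 N + 1) ^ 2 ≤ 10 ^ 6 * N ^ 2 := by
  simp only [c, Pool.Agent.MP_45d82d_co.card_eq_Av]
  exact Pool.Agent.MP_45d82d_co.Neg.threshold M hM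

/-- The negative answer to the monotonicity question follows. -/
theorem not_monotone : ¬ ∀ k : ℕ, Monotone (c k) := by
  intro h
  obtain ⟨N₀, hN⟩ := result 1 le_rfl
  obtain ⟨K, ⟨⟨n, n', -, h1, h2⟩, -⟩, -⟩ := hN N₀ le_rfl
  have := h K h1
  omega

end Pool.Agent.Results.MP_45d82d_co.Threshold
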